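import Mathlib

namespace Pool.Agent.Results.MP_5875c4_co.Counter

open Set

/-- `n` congruent copies of `C` cover `C + ε B` for some `ε > 0` -/
def Cov {k : ℕ} (C : Set (EuclideanSpace ℝ (Fin k))) (n : ℕ) : Prop :=
  ∃ g : Fin n → EuclideanSpace ℝ (Fin k) ≃ᵢ EuclideanSpace ℝ (Fin k), ∃ ε : ℝ, 0 < ε ∧
    ∀ x ∈ C, ∀ b, ‖b‖ ≤ ε → x + b ∈ ⋃ i, g i '' C

/-- the Newton covering number -/
noncomputable def newton {k : ℕ} (C : Set (EuclideanSpace ℝ (Fin k))) : ℕ∞ :=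
  sInf ((fun n : ℕ => (n : ℕ∞)) '' {n | Cov C n})

/-- the unit `k`-cube -/
def cube (k : ℕ) : Set (EuclideanSpace ℝ (Fin k)) := {x | ∀ i, |x i| ≤ 1 / 2}

/-- right pyramid of height `h` over the unit `k`-cube, in dimension `k + 1` -/
def pyr (k : ℕ) (h : ℝ) : Set (EuclideanSpace ℝ (Fin (k + 1))) :=
  convexHull ℝ ({x | x 0 = 0 ∧ ∀ i : Fin k, |x i.succ| ≤ 1 / 2} ∪ {EuclideanSpace.single 0 h})

theorem mem_pyr {k : ℕ} {h : ℝ} (hh : 0 < h) {x : EuclideanSpace ℝ (Fin (k + 1))} (h0 : 0 ≤ x 0)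
    (h1 : x 0 ≤ h) (hx : ∀ i : Fin k, |x i.succ| ≤ (1 - x 0 / h) / 2) : x ∈ pyr k h := by
  rcases h1.eq_or_lt with e | h1
  · refine subset_convexHull _ _ (Or.inr ?_)
    ext i
    refine Fin.cases (by simpa using e) (fun i => ?_) i
    have := hx i
    rw [e, div_self hh.ne', sub_self, zero_div, abs_nonpos_iff] at this
    simp [this]
  have t0 : 0 < 1 - x 0 / h := sub_pos.2 ((div_lt_one hh).2 h1)
  let y : EuclideanSpace ℝ (Fin (k + 1)) := (1 - x 0 / h)⁻¹ • (x - EuclideanSpace.single 0 (x 0))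
  have hy : y ∈ pyr k h := by
    refine subset_convexHull _ _ (Or.inl ⟨by simp [y], fun i => ?_⟩)
    have : y i.succ = (1 - x 0 / h)⁻¹ * x i.succ := by simp [y]
    rw [this, abs_mul, abs_of_pos (inv_pos.2 t0), inv_mul_le_iff₀ t0]
    linarith [hx i]
  have ha : EuclideanSpace.single 0 h ∈ pyr k h := subset_convexHull _ _ (Or.inr rfl)
  have := convex_convexHull ℝ _ hy ha t0.le (div_nonneg h0 hh.le) (by ring)
  have e : (1 - x 0 / h) • y + (x 0 / h) • EuclideanSpace.single 0 h = x := by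
    simp only [y, smul_smul, mul_inv_cancel₀ t0.ne', one_smul]
    ext i
    refine Fin.cases ?_ (fun i => by simp) i
    simp [hh.ne']
  rwa [e] at this

theorem lower (k : ℕ) : 2 ≤ newton (cube (k + 1)) := by
  have dsq : ∀ x y : EuclideanSpace ℝ (Fin (k + 1)),
      dist x y = √((x 0 - y 0) ^ 2 + ∑ i : Fin k, (x i.succ - y i.succ) ^ 2) := fun x y => by
    rw [EuclideanSpace.dist_eq, Fin.sum_univ_succ]; simp only [Real.dist_eq, sq_abs]
  have diam : ∀ x ∈ cube (k + 1), ∀ y ∈ cube (k + 1), dist x y ≤ √(1 + k) := fun x hx y hy => by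
    have one : ∀ i, (x i - y i) ^ 2 ≤ 1 := fun i => by
      have := abs_le.1 (hx i); have := abs_le.1 (hy i)
      nlinarith
    rw [dsq]
    refine Real.sqrt_le_sqrt (add_le_add (one 0) ((Finset.sum_le_sum fun (i : Fin k) _ => one i.succ).trans ?_))
    simp
  refine le_sInf ?_
  rintro _ ⟨n, ⟨g, ε, h0, h⟩, rfl⟩
  by_contra hn
  have hn : (n : ℕ∞) < 2 := not_le.1 hn
  have hn : n < 2 := by exact_mod_cast hn
  let b : ℝ → EuclideanSpace ℝ (Fin (k + 1)) := fun c => WithLp.toLp 2 fun _ => c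
  obtain ⟨i, x, hx, ex⟩ := mem_iUnion.1 (h (b (1 / 2)) (fun i => by simp [b]) (EuclideanSpace.single 0 ε)
    (by simp [h0.le, abs_of_pos h0]))
  obtain ⟨j, y, hy, ey⟩ := mem_iUnion.1 (h (b (-(1 / 2))) (fun i => by simp [b]) 0 (by simp [h0.le]))
  obtain rfl : i = j := Fin.ext (by omega)
  have := diam x hx y hy
  rw [← (g i).dist_eq, ex, ey, dsq, Real.sqrt_le_sqrt_iff (by positivity)] at this
  simp [b] at this
  nlinarith

theorem upper {k : ℕ} (r : EuclideanSpace ℝ (Fin (k + 1)) ≃ᵢ EuclideanSpace ℝ (Fin (k + 1)))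
    (hr : ∀ x, |x 0| ≤ 1 / 100 → (∀ i : Fin k, |x i.succ| ≤ 51 / 100) → r x ∈ pyr k 12) :
    newton (pyr k 12) ≤ 2 := by
  have sub : pyr k 12 ⊆ {x | 0 ≤ x 0 ∧ x 0 ≤ 12 ∧ ∀ i : Fin k, |x i.succ| ≤ (1 - x 0 / 12) / 2} := by
    refine convexHull_min ?_ ?_
    · rintro x (⟨a, b⟩ | rfl)
      · refine ⟨by rw [a], by rw [a]; norm_num, fun i => (b i).trans (by rw [a]; norm_num)⟩
      · refine ⟨by simp, by simp, fun i => by simp⟩
    · rintro x ⟨x1, x2, x3⟩ y ⟨y1, y2, y3⟩ a b ha hb hab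
      have key : ∀ u v u' v' : ℝ, u ≤ u' → v ≤ v' → a * u + b * v ≤ a * u' + b * v' := by
        intro u v u' v' h1 h2
        gcongr
      obtain rfl : b = 1 - a := by linarith
      refine ⟨?_, ?_, fun i => ?_⟩
      · have := key _ _ _ _ x1 y1
        simp; linarith
      · have := key _ _ _ _ x2 y2
        simp; linarith
      · have h1 := key _ _ _ _ (abs_le.1 (x3 i)).1 (abs_le.1 (y3 i)).1
        have h2 := key _ _ _ _ (abs_le.1 (x3 i)).2 (abs_le.1 (y3 i)).2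
        rw [abs_le]
        simp only [PiLp.add_apply, PiLp.smul_apply, smul_eq_mul]
        constructor <;> linarith
  refine sInf_le ⟨2, ⟨![IsometryEquiv.addRight (EuclideanSpace.single 0 (1 / 100)), r.symm],
    1 / 10000, by norm_num, fun z hz b hb => ?_⟩, rfl⟩
  obtain ⟨z1, z2, z3⟩ := sub hz
  have hb : ∀ i, |b i| ≤ 1 / 10000 := fun i => (PiLp.norm_apply_le b i).trans hb
  have b0 := abs_le.1 (hb 0)
  have x1 : -(1 / 100) ≤ (z + b) 0 := by rw [PiLp.add_apply]; linarith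
  have x2 : (z + b) 0 ≤ 12 + 1 / 100 := by rw [PiLp.add_apply]; linarith
  have x3 : ∀ i : Fin k, |(z + b) i.succ| ≤ (1 - ((z + b) 0 - 1 / 100) / 12) / 2 := fun i => by
    have := abs_le.1 (z3 i)
    have := abs_le.1 (hb i.succ)
    rw [PiLp.add_apply, PiLp.add_apply, abs_le]
    constructor <;> linarith
  generalize z + b = x at x1 x2 x3
  rw [mem_iUnion]
  by_cases h : 1 / 100 ≤ x 0
  · refine ⟨0, x - EuclideanSpace.single 0 (1 / 100), mem_pyr (by norm_num) ?_ ?_ fun i => ?_, by simp⟩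
    · simp; linarith
    · simp; linarith
    · simpa using x3 i
  · refine ⟨1, r x, hr x (abs_le.2 ⟨by linarith, by linarith⟩) fun i => ?_, by simp⟩
    linarith [x3 i]

noncomputable def r1 : EuclideanSpace ℝ (Fin 2) ≃ᵢ EuclideanSpace ℝ (Fin 2) where
  toFun x := !₂[x 1 + 1, x 0]
  invFun y := !₂[y 1, y 0 - 1]
  left_inv x := by ext i; fin_cases i <;> simp
  right_inv x := by ext i; fin_cases i <;> simp
  isometry_toFun := Isometry.of_dist_eq fun x y => by
    simp only [EuclideanSpace.dist_eq, Fin.sum_univ_two, Real.dist_eq, sq_abs]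
    congr 1; simp; ring

noncomputable def r2 : EuclideanSpace ℝ (Fin 3) ≃ᵢ EuclideanSpace ℝ (Fin 3) where
  toFun x := !₂[x 1 + 1, (4 * x 2 + 3 * x 0) / 5, (3 * x 2 - 4 * x 0) / 5]
  invFun y := !₂[(3 * y 1 - 4 * y 2) / 5, y 0 - 1, (4 * y 1 + 3 * y 2) / 5]
  left_inv x := by ext i; fin_cases i <;> simp <;> ring
  right_inv x := by ext i; fin_cases i <;> simp <;> ring
  isometry_toFun := Isometry.of_dist_eq fun x y => by
    simp only [EuclideanSpace.dist_eq, Fin.sum_univ_three, Real.dist_eq, sq_abs]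
    congr 1; simp; ring

theorem result : ∀ k ∈ ({1, 2} : Set ℕ), ∃ h : ℝ, 0 < h ∧
    newton (pyr k h) ≤ 2 ∧ 2 ≤ newton (cube k) ∧ newton (pyr k h) ≠ newton (cube k) + 1 := by
  suffices H : ∀ k ∈ ({1, 2} : Set ℕ), ∃ h : ℝ, 0 < h ∧ newton (pyr k h) ≤ 2 ∧ 2 ≤ newton (cube k) by
    intro k hk
    obtain ⟨h, a, c, d⟩ := H k hk
    exact ⟨h, a, c, d, (c.trans_lt (lt_of_lt_of_le (by norm_num) (add_le_add d le_rfl))).ne⟩
  rintro k (rfl | rfl)
  · refine ⟨12, by norm_num, upper r1 fun x a b => ?_, lower 0⟩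
    have a := abs_le.1 a
    have b : |x 1| ≤ _ := b 0
    have b := abs_le.1 b
    refine mem_pyr (by norm_num) ?_ ?_ fun i => ?_
    · show 0 ≤ x 1 + 1; linarith
    · show x 1 + 1 ≤ 12; linarith
    · fin_cases i
      show |x 0| ≤ (1 - (x 1 + 1) / 12) / 2
      rw [abs_le]; constructor <;> linarith
  · refine ⟨12, by norm_num, upper r2 fun x a b => ?_, lower 1⟩
    have a := abs_le.1 a
    have c : |x 2| ≤ _ := b 1
    have b : |x 1| ≤ _ := b 0
    have b := abs_le.1 b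
    have c := abs_le.1 c
    refine mem_pyr (by norm_num) ?_ ?_ fun i => ?_
    · show 0 ≤ x 1 + 1; linarith
    · show x 1 + 1 ≤ 12; linarith
    · fin_cases i
      · show |(4 * x 2 + 3 * x 0) / 5| ≤ (1 - (x 1 + 1) / 12) / 2
        rw [abs_le]; constructor <;> linarith
      · show |(3 * x 2 - 4 * x 0) / 5| ≤ (1 - (x 1 + 1) / 12) / 2
        rw [abs_le]; constructor <;> linarith

end Pool.Agent.Results.MP_5875c4_co.Counter
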